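import Pool.Agent.N57.EN.Tri

/-!
MP_a5aec7_al (Q1): every minimal non-Engel variety of associative rings is a Cross variety.

For a finite field `K` and `a ≠ b` in `K` let `TRing K a b` be the ring of the upper triangular
matrices `(g(a), u; 0, g(b))`, `g ∈ tℤ[t]`, `u ∈ K`.  A variety of rings is Engel if and only if
it contains none of these finite rings, and each of them generates a Cross variety.

Sketch.  Let `V` contain none of the rings `TRing K a b`.

* (`Fac`, `uniform`) There is an `N` such that `[m, _N s] = 0` in every ring of `V` whenever
  `m s^k m = 0` for all `k ≥ 0`: otherwise a product gives `m, s` for which no `[m, _N s]` is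
  zero, and a finite residue field of the commutative ring `ℤ[L_s, R_s]` in which
  `L_s ≠ R_s` gives a ring `TRing K a b` in `V`.
* (`Prime`) If `V` is not Engel, a ring of `V`, maximal with respect to `[x, _n y] ≠ 0` for all `n`,
  has no zero divisors (Levitzki's lemma).
* (`Free`, `Vdm`) `V` satisfies an identity `[x, _N y] = h(x, y)` with `h` of degree at least two
  in `x`; if some `v ≠ 0` has many multiples `u` in the extended centroid (`u r v = v r u` for
  all `r`), the linear part vanishes on the ideal of `v`, which is impossible.
* (`Gen`, `Lin`) Otherwise the extended centroid is finite and the ring satisfies no identity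
  modulo `p` at all (generic elements by the theorem of B. H. Neumann on coverings by cosets), a
  contradiction.
* (`SI`, `Cross`) Subdirectly irreducible rings with the identities `p x = 0`, `ρ ρ' = 0`,
  `ρ u ρ' = 0`, where `ρ, ρ'` are commutators or `x^Q - x`, have at most `Q³` elements.
-/

set_option autoImplicit false

namespace Pool.Agent.Results.MP_a5aec7_al.MinimalNonEngelCross

open Pool.Agent.N57.EN

/-- (1) Every minimal non-Engel variety of associative rings is a Cross variety, and it is
generated by one of the finite rings `TRing K a b`, `a ≠ b`.
(2) A variety of associative rings is Engel if and only if it contains none of these rings. -/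
theorem result :
    (∀ S : Set RTerm, MinimalNonEngel S → IsCross S ∧
      ∃ (K : Type) (_ : Field K) (_ : Finite K) (a b : K), a ≠ b ∧
        VarLE S (Id (TRing K a b)) ∧ VarLE (Id (TRing K a b)) S) ∧
    (∀ S : Set RTerm, IsEngel S ↔
      ∀ (K : Type) (_ : Field K) (_ : Finite K) (a b : K), a ≠ b → ¬ InVar S (TRing K a b)) :=
  ⟨main_cross, main_engel⟩

end Pool.Agent.Results.MP_a5aec7_al.MinimalNonEngelCross
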